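import Mathlib

/-!
# Monochromatic Berge-cycles and Berge-paths in edge-coloured complete `k`-graphs: definitions
-/

set_option autoImplicit false

namespace Pool.Agent.Lib.MP_359994_co

/-- The edges of the complete `k`-graph on the vertex set `[n]`: all `k`-element subsets. -/
abbrev KEdge (n k : ℕ) : Type := {e : Finset (Fin n) // e.card = k}

/-- `(X, F)` is a Berge-cycle in the complete `k`-graph on `[n]`, with core `X` and edge set `F`:
either there are `ℓ = m + 2 ≥ 2` distinct vertices `v_i` and `ℓ` distinct edges `e_i` (indices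
modulo `ℓ`) with `v_i, v_{i+1} ∈ e_i`, or it is one of the degenerate cycles `({v}, ∅)` and
`({u, v}, {e})` with `u, v ∈ e`. -/
def IsBergeCycle {n k : ℕ} (X : Finset (Fin n)) (F : Finset (KEdge n k)) : Prop :=
  (∃ (m : ℕ) (v : Fin (m + 2) → Fin n) (e : Fin (m + 2) → KEdge n k),
      Function.Injective v ∧ Function.Injective e ∧
      (∀ i, v i ∈ (e i).1 ∧ v (i + 1) ∈ (e i).1) ∧
      X = Finset.univ.image v ∧ F = Finset.univ.image e) ∨
  (∃ v : Fin n, X = {v} ∧ F = ∅) ∨
  (∃ (u v : Fin n) (e : KEdge n k), u ≠ v ∧ u ∈ e.1 ∧ v ∈ e.1 ∧ X = {u, v} ∧ F = {e})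

/-- `(X, F)` is a Berge-path in the complete `k`-graph on `[n]`, with core `X` and edge set `F`:
there are distinct vertices `v_0, …, v_m` and distinct edges `e_0, …, e_{m-1}` with
`v_i, v_{i+1} ∈ e_i` (for `k = 2` this is an ordinary path, possibly a single vertex). -/
def IsBergePath {n k : ℕ} (X : Finset (Fin n)) (F : Finset (KEdge n k)) : Prop :=
  ∃ (m : ℕ) (v : Fin (m + 1) → Fin n) (e : Fin m → KEdge n k),
    Function.Injective v ∧ Function.Injective e ∧
    (∀ i : Fin m, v i.castSucc ∈ (e i).1 ∧ v i.succ ∈ (e i).1) ∧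
    X = Finset.univ.image v ∧ F = Finset.univ.image e

/-- All edges of `F` receive the same colour. -/
def Mono {n k r : ℕ} (χ : KEdge n k → Fin r) (F : Finset (KEdge n k)) : Prop :=
  ∀ f ∈ F, ∀ g ∈ F, χ f = χ g

/-- There are at most `s` monochromatic pieces (Berge-cycles or Berge-paths, according to
`piece`) with pairwise disjoint cores whose union contains all but at most `c` vertices. -/
def CoversAllBut {n k r : ℕ}
    (piece : Finset (Fin n) → Finset (KEdge n k) → Prop)
    (χ : KEdge n k → Fin r) (s c : ℕ) : Prop :=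
  ∃ t ≤ s, ∃ (X : Fin t → Finset (Fin n)) (F : Fin t → Finset (KEdge n k)),
    (∀ i, piece (X i) (F i) ∧ Mono χ (F i)) ∧
    (∀ i j, i ≠ j → Disjoint (X i) (X j)) ∧
    (Finset.univ \ Finset.univ.biUnion X).card ≤ c

/-- The assertion of Q1: for all `s ≥ 1` and `k ≥ 2` there is `c` such that for every `n` and
every edge-colouring of the complete `k`-graph on `[n]` with `s (k - 1)` colours there are at
most `s` monochromatic Berge-cycles with pairwise disjoint cores which cover all but at most `c`
vertices. -/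
def BergeCycleCoverConjecture : Prop :=
  ∀ s : ℕ, 1 ≤ s → ∀ k : ℕ, 2 ≤ k → ∃ c : ℕ, ∀ n : ℕ,
    ∀ χ : KEdge n k → Fin (s * (k - 1)), CoversAllBut IsBergeCycle χ s c

end Pool.Agent.Lib.MP_359994_co
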