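import Pool.Agent.Lib.MP_359994_co.CoreFour
import Pool.Agent.Lib.MP_359994_co.Defs

/-!
# The colouring and the final theorem
-/

set_option autoImplicit false

namespace Pool.Agent.Lib.MP_359994_co.Four

open Finset

lemma exists_label {α : Type} [Fintype α] [DecidableEq α] (w : α → ℕ) (n : ℕ)
    (h : ∑ a, w a = n) :
    ∃ f : Fin n → α, ∀ a, (univ.filter (fun x => f x = a)).card = w a := by
  have hcard : Fintype.card (Fin n) = Fintype.card (Σ a, Fin (w a)) := by
    simp [h]
  let e : Fin n ≃ Σ a, Fin (w a) := Fintype.equivOfCardEq hcard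
  refine ⟨fun x => (e x).1, fun a => ?_⟩
  have h1 : (univ.filter (fun x => (e x).1 = a)).card
      = (univ.image (fun k : Fin (w a) => e.symm ⟨a, k⟩)).card := by
    congr 1
    ext x
    simp only [mem_filter, mem_univ, true_and, mem_image]
    constructor
    · intro hx
      subst hx
      exact ⟨(e x).2, by simp⟩
    · rintro ⟨k, rfl⟩
      simp
  rw [h1, Finset.card_image_of_injective]
  · simp
  · intro k k' hk
    have := e.symm.injective hk
    simpa using this

section Colouring

variable {n : ℕ}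

/-- the colour (a natural number) of an edge -/
noncomputable def colN (ext : Fin n → ℕ) (β : Fin n → Fin 9) (e : Finset (Fin n)) : ℕ :=
  e.sup (fun a => e.sup (fun b => if a = b then 0 else col ext β a b))

lemma colN_eq (ext : Fin n → ℕ) (β : Fin n → Fin 9) {e : Finset (Fin n)} (he : e.card = 2)
    {a b : Fin n} (ha : a ∈ e) (hb : b ∈ e) (hab : a ≠ b) : colN ext β e = col ext β a b := by
  have heq : e = {a, b} := by
    symm
    apply Finset.eq_of_subset_of_card_le
    · intro x hx
      rcases Finset.mem_insert.mp hx with rfl | hx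
      · exact ha
      · rw [Finset.mem_singleton.mp hx]; exact hb
    · rw [he, Finset.card_pair hab]
  subst heq
  unfold colN
  simp only [Finset.sup_insert, Finset.sup_singleton, if_true, if_neg hab, if_neg (Ne.symm hab)]
  rw [col_comm ext β b a]
  simp

lemma col_lt_bound {ext : Fin n → ℕ} {β : Fin n → Fin 9} {t : ℕ} (h : ∀ x, ext x ≤ t)
    (a b : Fin n) : col ext β a b < 4 + t := by
  by_cases hlt : col ext β a b < 4
  · omega
  · rw [col_ext hlt]
    have := max_le (h a) (h b)
    omega

lemma colN_lt {ext : Fin n → ℕ} {β : Fin n → Fin 9} {t : ℕ} (h : ∀ x, ext x ≤ t)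
    (e : Finset (Fin n)) : colN ext β e < 4 + t := by
  unfold colN
  rw [Finset.sup_lt_iff (by simp)]
  intro a _
  rw [Finset.sup_lt_iff (by simp)]
  intro b _
  split_ifs
  · omega
  · exact col_lt_bound h a b

/-- the edge-colouring of the complete graph -/
noncomputable def chi (ext : Fin n → ℕ) (β : Fin n → Fin 9) {t : ℕ} (h : ∀ x, ext x ≤ t) :
    KEdge n 2 → Fin (4 + t) := fun e => ⟨colN ext β e.1, colN_lt h e.1⟩

lemma chi_val {ext : Fin n → ℕ} {β : Fin n → Fin 9} {t : ℕ} (h : ∀ x, ext x ≤ t)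
    (e : KEdge n 2) {a b : Fin n} (ha : a ∈ e.1) (hb : b ∈ e.1) (hab : a ≠ b) :
    (chi ext β h e).val = col ext β a b := colN_eq ext β e.2 ha hb hab

lemma piece_of_path {ext : Fin n → ℕ} {β : Fin n → Fin 9} {t : ℕ} (h : ∀ x, ext x ≤ t)
    {X : Finset (Fin n)} {F : Finset (KEdge n 2)} (hX : IsBergePath X F)
    (hmono : Mono (chi ext β h) F) :
    ∃ (W : Finset (Fin n)) (κ : ℕ) (σ : Fin n → Fin n),
      W ⊆ X ∧ (X \ W).card ≤ 1 ∧ (∀ x ∈ W, σ x ∈ X) ∧ Set.InjOn σ (W : Set (Fin n)) ∧
      (∀ x ∈ W, col ext β x (σ x) = κ) ∧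
      (κ < 4 → ∀ x ∈ W, ∀ y ∈ W, g κ (β x) = g κ (β y)) := by
  classical
  obtain ⟨m, v, e, hv, he, hve, rfl, rfl⟩ := hX
  have hne : ∀ i : Fin m, v i.castSucc ≠ v i.succ := by
    intro i hi
    have := hv hi
    exact absurd this (Fin.castSucc_lt_succ).ne
  have hcolor : ∀ i : Fin m, (chi ext β h (e i)).val = col ext β (v i.castSucc) (v i.succ) :=
    fun i => chi_val h (e i) (hve i).1 (hve i).2 (hne i)
  obtain ⟨κ, hκ⟩ : ∃ κ : ℕ, ∀ i : Fin m, col ext β (v i.castSucc) (v i.succ) = κ := by
    by_cases hm : 0 < m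
    · refine ⟨(chi ext β h (e ⟨0, hm⟩)).val, fun i => ?_⟩
      rw [← hcolor i]
      have := hmono (e i) (Finset.mem_image.mpr ⟨i, Finset.mem_univ _, rfl⟩)
        (e ⟨0, hm⟩) (Finset.mem_image.mpr ⟨⟨0, hm⟩, Finset.mem_univ _, rfl⟩)
      rw [this]
    · exact ⟨0, fun i => absurd i.2 (by omega)⟩
  set σ : Fin n → Fin n := fun x =>
    if hx : ∃ i : Fin m, v i.castSucc = x then v (hx.choose).succ else x with hσ
  have hσv : ∀ i : Fin m, σ (v i.castSucc) = v i.succ := by
    intro i
    have hx : ∃ j : Fin m, v j.castSucc = v i.castSucc := ⟨i, rfl⟩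
    simp only [hσ]
    rw [dif_pos hx]
    have h1 := hv hx.choose_spec
    have h2 : hx.choose = i := Fin.castSucc_injective m h1
    rw [h2]
  refine ⟨univ.image (fun i : Fin m => v i.castSucc), κ, σ, ?_, ?_, ?_, ?_, ?_, ?_⟩
  · intro x hx
    obtain ⟨i, -, rfl⟩ := Finset.mem_image.mp hx
    exact Finset.mem_image.mpr ⟨i.castSucc, Finset.mem_univ _, rfl⟩
  · have : (univ.image v) \ (univ.image (fun i : Fin m => v i.castSucc)) ⊆ {v (Fin.last m)} := by
      intro x hx
      obtain ⟨hx1, hx2⟩ := Finset.mem_sdiff.mp hx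
      obtain ⟨i, -, rfl⟩ := Finset.mem_image.mp hx1
      rw [Finset.mem_singleton]
      rcases Fin.eq_castSucc_or_eq_last i with ⟨j, rfl⟩ | rfl
      · exact absurd (Finset.mem_image.mpr ⟨j, Finset.mem_univ _, rfl⟩) hx2
      · rfl
    exact le_trans (Finset.card_le_card this) (by simp)
  · intro x hx
    obtain ⟨i, -, rfl⟩ := Finset.mem_image.mp hx
    rw [hσv]
    exact Finset.mem_image.mpr ⟨i.succ, Finset.mem_univ _, rfl⟩
  · intro x hx y hy hxy
    obtain ⟨i, -, rfl⟩ := Finset.mem_image.mp (Finset.mem_coe.mp hx)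
    obtain ⟨j, -, rfl⟩ := Finset.mem_image.mp (Finset.mem_coe.mp hy)
    rw [hσv, hσv] at hxy
    have := Fin.succ_injective m (hv hxy)
    rw [this]
  · intro x hx
    obtain ⟨i, -, rfl⟩ := Finset.mem_image.mp hx
    rw [hσv]
    exact hκ i
  · intro hκ14
    have hall : ∀ i : Fin (m + 1), g κ (β (v i)) = g κ (β (v 0)) := by
      intro i
      induction i using Fin.induction with
      | zero => rfl
      | succ i ih =>
        rw [← ih]
        have h1 : col ext β (v i.castSucc) (v i.succ) < 4 := by rw [hκ i]; exact hκ14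
        have h2 := g_col h1
        rw [hκ i] at h2
        exact h2.symm
    intro x hx y hy
    obtain ⟨i, -, rfl⟩ := Finset.mem_image.mp hx
    obtain ⟨j, -, rfl⟩ := Finset.mem_image.mp hy
    rw [hall i.castSucc, hall j.castSucc]

lemma pieces_of_family {ext : Fin n → ℕ} {β : Fin n → Fin 9} {t : ℕ} (h : ∀ x, ext x ≤ t)
    {T : ℕ} (X : Fin T → Finset (Fin n)) (F : Fin T → Finset (KEdge n 2))
    (hXF : ∀ i, IsBergePath (X i) (F i) ∧ Mono (chi ext β h) (F i))
    (hdisj : ∀ i j, i ≠ j → Disjoint (X i) (X j)) :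
    ∃ P : Pieces ext β T, P.X = X := by
  have := fun i => piece_of_path h (hXF i).1 (hXF i).2
  choose W κ σ h1 h2 h3 h4 h5 h6 using this
  exact ⟨⟨X, W, κ, σ, hdisj, h1, h2, h3, h4, h5, h6⟩, rfl⟩

end Colouring

/-- a Berge-cycle contains a Berge-path with the same core -/
lemma path_of_cycle {n k : ℕ} {X : Finset (Fin n)} {F : Finset (KEdge n k)}
    (h : IsBergeCycle X F) : ∃ F' ⊆ F, IsBergePath X F' := by
  rcases h with ⟨m, v, e, hv, he, hve, rfl, rfl⟩ | ⟨v, rfl, rfl⟩ | ⟨a, b, e, hab, ha, hb, rfl, rfl⟩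
  · refine ⟨univ.image (fun i : Fin (m + 1) => e i.castSucc), ?_, m + 1, v,
      fun i => e i.castSucc, hv, ?_, ?_, rfl, rfl⟩
    · intro x hx
      obtain ⟨i, -, rfl⟩ := Finset.mem_image.mp hx
      exact Finset.mem_image.mpr ⟨_, Finset.mem_univ _, rfl⟩
    · intro i j hij
      exact Fin.castSucc_injective _ (he hij)
    · intro i
      have := hve i.castSucc
      rw [Fin.coeSucc_eq_succ] at this
      exact this
  · refine ⟨∅, by simp, 0, fun _ => v, Fin.elim0, ?_, ?_, ?_, ?_, ?_⟩
    · intro i j _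
      exact Fin.ext (by have := i.2; have := j.2; omega)
    · intro i
      exact i.elim0
    · intro i
      exact i.elim0
    · ext x
      simp [eq_comm]
    · rfl
  · refine ⟨{e}, by simp, 1, ![a, b], fun _ => e, ?_, ?_, ?_, ?_, ?_⟩
    · intro i j hij
      fin_cases i <;> fin_cases j <;> simp_all
    · intro i j _
      exact Subsingleton.elim _ _
    · intro i
      fin_cases i
      simp [ha, hb]
    · ext x
      simp [Fin.exists_fin_two, eq_comm]
    · ext x
      simp [eq_comm]

lemma covers_path_of_cycle {n k r : ℕ} {χ : KEdge n k → Fin r} {s c : ℕ}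
    (h : CoversAllBut IsBergeCycle χ s c) : CoversAllBut IsBergePath χ s c := by
  obtain ⟨T, hT, X, F, h1, h2, h3⟩ := h
  have := fun i => path_of_cycle (h1 i).1
  choose F' hF' hP using this
  refine ⟨T, hT, X, F', fun i => ⟨hP i, ?_⟩, h2, h3⟩
  intro f hf g hg
  exact (h1 i).2 f (hF' i hf) g (hF' i hg)

/-- the sizes of the classes -/
def wt (t u M ρ : ℕ) : Fin t ⊕ Fin 9 → ℕ
  | Sum.inl j => 2 ^ (t - 1 - j.1) * u
  | Sum.inr p => wv p * M + if p = 8 then ρ else 0

/-- the extra index of a label -/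
def extL (t : ℕ) : Fin t ⊕ Fin 9 → ℕ
  | Sum.inl j => j.1 + 1
  | Sum.inr _ => 0

/-- the point of a label -/
def betL (t : ℕ) : Fin t ⊕ Fin 9 → Fin 9
  | Sum.inl _ => 0
  | Sum.inr p => p

lemma ext_le {t : ℕ} (l : Fin t ⊕ Fin 9) : extL t l ≤ t := by
  rcases l with j | p
  · have := j.2
    simp only [extL]
    omega
  · simp [extL]

section Sizes

variable {n t u M ρ : ℕ} {f : Fin n → Fin t ⊕ Fin 9}
  (hf : ∀ a, (univ.filter (fun x => f x = a)).card = wt t u M ρ a)

include hf

lemma exq_card (j : ℕ) (h1 : 1 ≤ j) (hj : j ≤ t) :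
    (exq (fun x => extL t (f x)) j).card = 2 ^ (t - j) * u := by
  have h : exq (fun x => extL t (f x)) j =
      univ.filter (fun x => f x = Sum.inl ⟨j - 1, by omega⟩) := by
    ext x
    simp only [exq, mem_filter, mem_univ, true_and]
    rcases hx : f x with i | p
    · simp only [extL, Sum.inl.injEq]
      constructor
      · intro h; apply Fin.ext; simp only; omega
      · intro h; rw [h]; simp only; omega
    · simp only [extL, reduceCtorEq, iff_false]
      omega
  rw [h, hf]
  simp only [wt]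
  congr 2
  omega

lemma exs_card (k : ℕ) (hk : k ≤ t) :
    (exs (fun x => extL t (f x)) (t - k)).card + u = 2 ^ k * u := by
  induction k with
  | zero =>
    have : exs (fun x => extL t (f x)) t = ∅ := by
      ext x
      simp only [exs, mem_filter, mem_univ, true_and, notMem_empty, iff_false, not_lt]
      exact ext_le _
    simp [this]
  | succ k ih =>
    have ih' := ih (by omega)
    have h : exs (fun x => extL t (f x)) (t - (k + 1)) =
        exs (fun x => extL t (f x)) (t - k) ∪ exq (fun x => extL t (f x)) (t - k) := by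
      ext x
      simp only [exs, exq, mem_filter, mem_univ, true_and, mem_union]
      omega
    have hd : Disjoint (exs (fun x => extL t (f x)) (t - k))
        (exq (fun x => extL t (f x)) (t - k)) := by
      rw [Finset.disjoint_left]
      intro x hx hx'
      simp only [exs, exq, mem_filter, mem_univ, true_and] at hx hx'
      omega
    rw [h, Finset.card_union_of_disjoint hd, exq_card hf (t - k) (by omega) (by omega)]
    have : t - (t - k) = k := by omega
    rw [this, pow_succ]
    nlinarith [ih']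

lemma blk_card (p : Fin 9) :
    (blk (fun x => extL t (f x)) (fun x => betL t (f x)) p).card = wt t u M ρ (Sum.inr p) := by
  rw [← hf]
  congr 1
  ext x
  simp only [blk, mem_filter, mem_univ, true_and]
  rcases hx : f x with i | q
  · simp [extL]
  · simp [extL, betL]

end Sizes

lemma sum_wt (t u M ρ : ℕ) :
    ∑ a, wt t u M ρ a + u = 2 ^ t * u + 43 * M + ρ := by
  rw [Fintype.sum_sum_type]
  have h1 : ∀ k ≤ t, ∑ j ∈ range k, 2 ^ (t - 1 - j) * u + 2 ^ (t - k) * u = 2 ^ t * u := by
    intro k
    induction k with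
    | zero => intro _; simp
    | succ k ih =>
      intro hk
      rw [Finset.sum_range_succ]
      have := ih (by omega)
      have e1 : t - 1 - k = t - (k + 1) := by omega
      have e2 : t - k = (t - (k + 1)) + 1 := by omega
      rw [e2, pow_succ] at this
      rw [e1]
      linarith
  have h2 : ∑ j : Fin t, wt t u M ρ (Sum.inl j) + u = 2 ^ t * u := by
    have := h1 t le_rfl
    rw [Nat.sub_self, pow_zero, one_mul] at this
    rw [← this, ← Fin.sum_univ_eq_sum_range (fun j => 2 ^ (t - 1 - j) * u)]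
    rfl
  have h3 : ∑ p : Fin 9, wt t u M ρ (Sum.inr p) = 43 * M + ρ := by
    simp only [wt, Finset.sum_add_distrib, ← Finset.sum_mul, Finset.sum_ite_eq', mem_univ, if_true]
    congr 2
  rw [h3]
  omega

/-- The main combinatorial statement. -/
theorem paths_lower (t n : ℕ) (hn : 2 ^ (t + 11) ≤ n) :
    ∃ χ : KEdge n 2 → Fin (4 + t), ∀ c : ℕ,
      CoversAllBut IsBergePath χ (4 + t) c → n < 2 ^ (t + 11) * (c + 4 + t + 1) := by
  classical
  set u := n / 2 ^ (t + 11) with hu
  have hupos : 1 ≤ u := by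
    rw [hu, Nat.le_div_iff_mul_le (by positivity)]
    omega
  have hun : 2 ^ (t + 11) * u ≤ n := Nat.mul_div_le n _
  set A := 2 ^ t * u with hA
  have hA2048 : 2 ^ (t + 11) * u = 2048 * A := by
    rw [hA, pow_add]; ring
  have hApos : u ≤ A := by
    rw [hA]
    exact Nat.le_mul_of_pos_left u (by positivity)
  set R := n + u - A with hR
  set M := R / 43 with hM
  set ρ := R % 43 with hρ
  have hRM : 43 * M + ρ = R := Nat.div_add_mod R 43
  have hρ43 : ρ < 43 := Nat.mod_lt _ (by norm_num)
  have hMbig : A + ρ ≤ M := by omega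
  have hsum : ∑ a, wt t u M ρ a = n := by
    have := sum_wt t u M ρ
    rw [← hA] at this
    omega
  obtain ⟨f, hf⟩ := exists_label (wt t u M ρ) n hsum
  refine ⟨chi (fun x => extL t (f x)) (fun x => betL t (f x)) (fun x => ext_le _), ?_⟩
  rintro c ⟨T, hT, X, F, hXF, hdisj, hcov⟩
  obtain ⟨P, hP⟩ := pieces_of_family (fun x => ext_le _) X F hXF hdisj
  have hrest := P.rest_card
  rw [hP] at hrest
  by_contra hlt
  push Not at hlt
  have hcu : c + 4 + t + 1 ≤ u := by
    rw [hu, Nat.le_div_iff_mul_le (by positivity), mul_comm]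
    exact hlt
  have hE0 : (exs (fun x => extL t (f x)) 0).card + u = A := by
    have := exs_card hf t le_rfl
    rwa [Nat.sub_self] at this
  apply core _ _ P t u hT (by omega)
  · intro j h1 h2
    have e1 := exs_card hf (t - j) (by omega)
    have e2 : t - (t - j) = j := by omega
    rw [e2] at e1
    rw [e1, exq_card hf j h1 h2]
  · intro j
    have h1 : ∑ p ∈ cN j, (blk (fun x => extL t (f x)) (fun x => betL t (f x)) p).card ≤
        (∑ p ∈ cN j, wv p) * M + ρ := by
      simp only [blk_card hf, wt, Finset.sum_add_distrib, ← Finset.sum_mul, Finset.sum_ite_eq']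
      split_ifs <;> omega
    have h2 : (∑ p ∈ cI j, wv p) * M ≤
        ∑ p ∈ cI j, (blk (fun x => extL t (f x)) (fun x => betL t (f x)) p).card := by
      simp only [blk_card hf, wt, Finset.sum_add_distrib, ← Finset.sum_mul]
      omega
    have h3 := Nat.mul_le_mul_right M (cert_wt j)
    rw [add_mul, one_mul] at h3
    omega

end Pool.Agent.Lib.MP_359994_co.Four
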