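import Pool.Agent.Lib.MP_359994_co.Heavy

/-!
# The counting argument
-/

set_option autoImplicit false

namespace Pool.Agent.Lib.MP_359994_co

open Finset

open Classical in
/-- the colour inside the block of a point -/
noncomputable def ellP (p : Fq × Fq) : ℕ := if h : ∃ i, H i = p then ell h.choose else 0

lemma ellP_H (i : Fin 5) : ellP (H i) = ell i := by
  have h : ∃ j, H j = H i := ⟨i, rfl⟩
  unfold ellP
  rw [dif_pos h]
  rw [H_inj _ _ h.choose_spec]

lemma ellP_lt (p : Fq × Fq) : ellP p < 14 := by
  unfold ellP
  split_ifs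
  · exact ell_lt _
  · norm_num

section

variable {V : Type*}

/-- The colour of the pair `u, v`. -/
noncomputable def col (ext : V → ℕ) (β : V → Fq × Fq) (u v : V) : ℕ :=
  if ext u = 0 ∧ ext v = 0 then (if β u = β v then ellP (β u) else dirN (β u) (β v))
  else 13 + max (ext u) (ext v)

lemma col_comm (ext : V → ℕ) (β : V → Fq × Fq) (u v : V) :
    col ext β u v = col ext β v u := by
  unfold col
  by_cases h : ext u = 0 ∧ ext v = 0
  · rw [if_pos h, if_pos h.symm]
    by_cases hb : β u = β v
    · rw [if_pos hb, if_pos hb.symm, hb]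
    · rw [if_neg hb, if_neg (fun e => hb e.symm), dirN_comm]
  · rw [if_neg h, if_neg (fun e => h e.symm), max_comm]

lemma col_lt_iff (ext : V → ℕ) (β : V → Fq × Fq) (u v : V) :
    col ext β u v < 14 ↔ (ext u = 0 ∧ ext v = 0) := by
  unfold col
  by_cases h : ext u = 0 ∧ ext v = 0
  · rw [if_pos h]
    refine ⟨fun _ => h, fun _ => ?_⟩
    split_ifs
    · exact ellP_lt _
    · exact dirN_lt _ _
  · rw [if_neg h]
    refine ⟨fun h' => ?_, fun h' => absurd h' h⟩
    exfalso
    apply h
    have : max (ext u) (ext v) = 0 := by omega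
    constructor
    · have := le_max_left (ext u) (ext v); omega
    · have := le_max_right (ext u) (ext v); omega

lemma col_ext {ext : V → ℕ} {β : V → Fq × Fq} {u v : V} (h : ¬ col ext β u v < 14) :
    col ext β u v = 13 + max (ext u) (ext v) := by
  rw [col_lt_iff] at h
  unfold col
  rw [if_neg h]

lemma g_col {ext : V → ℕ} {β : V → Fq × Fq} {u v : V} (h : col ext β u v < 14) :
    g (col ext β u v) (β u) = g (col ext β u v) (β v) := by
  have h' := (col_lt_iff ext β u v).mp h
  unfold col
  rw [if_pos h']
  by_cases hb : β u = β v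
  · rw [if_pos hb, hb]
  · rw [if_neg hb]
    exact g_dirN _ _

/-- a monochromatic pair inside the core: either both vertices are in one block, of internal
colour the colour of the pair, or they are in different blocks. -/
lemma col_same {ext : V → ℕ} {β : V → Fq × Fq} {u v : V} (h : col ext β u v < 14)
    (hb : β u = β v) : col ext β u v = ellP (β u) := by
  have h' := (col_lt_iff ext β u v).mp h
  unfold col
  rw [if_pos h', if_pos hb]

variable [Fintype V] [DecidableEq V]

/-- Families of monochromatic paths, with the successor maps. -/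
structure Pieces (ext : V → ℕ) (β : V → Fq × Fq) (T : ℕ) where
  X : Fin T → Finset V
  W : Fin T → Finset V
  κ : Fin T → ℕ
  σ : Fin T → V → V
  disj : ∀ i j, i ≠ j → Disjoint (X i) (X j)
  sub : ∀ i, W i ⊆ X i
  card : ∀ i, (X i \ W i).card ≤ 1
  maps : ∀ i, ∀ x ∈ W i, σ i x ∈ X i
  inj : ∀ i, Set.InjOn (σ i) (W i : Set V)
  colr : ∀ i, ∀ x ∈ W i, col ext β x (σ i x) = κ i
  inv : ∀ i, κ i < 14 → ∀ x ∈ W i, ∀ y ∈ W i, g (κ i) (β x) = g (κ i) (β y)

namespace Pieces

variable {ext : V → ℕ} {β : V → Fq × Fq} {T : ℕ} (P : Pieces ext β T)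

omit [Fintype V] in
include P in
lemma count (A B : Finset V) (J : Finset (Fin T))
    (h : ∀ i ∈ J, ∀ x ∈ P.W i, x ∈ A → P.σ i x ∈ B) :
    ∑ i ∈ J, (A ∩ P.W i).card ≤ B.card := by
  calc ∑ i ∈ J, (A ∩ P.W i).card ≤ ∑ i ∈ J, (B ∩ P.X i).card := by
        apply Finset.sum_le_sum
        intro i hi
        apply Finset.card_le_card_of_injOn (P.σ i)
        · intro x hx
          have hx' := Finset.mem_inter.mp (Finset.mem_coe.mp hx)
          exact Finset.mem_coe.mpr (Finset.mem_inter.mpr
            ⟨h i hi x hx'.2 hx'.1, P.maps i x hx'.2⟩)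
        · intro x hx y hy hxy
          have hx' := Finset.mem_inter.mp (Finset.mem_coe.mp hx)
          have hy' := Finset.mem_inter.mp (Finset.mem_coe.mp hy)
          exact P.inj i (Finset.mem_coe.mpr hx'.2) (Finset.mem_coe.mpr hy'.2) hxy
    _ = (J.biUnion (fun i => B ∩ P.X i)).card := by
        rw [Finset.card_biUnion]
        intro i _ j _ hij
        exact (P.disj i j hij).mono Finset.inter_subset_right Finset.inter_subset_right
    _ ≤ B.card := by
        apply Finset.card_le_card
        intro x hx
        obtain ⟨i, -, hi⟩ := Finset.mem_biUnion.mp hx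
        exact (Finset.mem_inter.mp hi).1

/-- the vertices that are not in any `W i` -/
def rest : Finset V := univ \ univ.biUnion P.W

lemma cover_bound (A : Finset V) :
    A.card ≤ P.rest.card + ∑ i, (A ∩ P.W i).card := by
  have hsub : A ⊆ P.rest ∪ univ.biUnion (fun i => A ∩ P.W i) := by
    intro x hx
    by_cases h : x ∈ univ.biUnion P.W
    · apply Finset.mem_union_right
      obtain ⟨i, hi, hxi⟩ := Finset.mem_biUnion.mp h
      exact Finset.mem_biUnion.mpr ⟨i, hi, Finset.mem_inter.mpr ⟨hx, hxi⟩⟩
    · apply Finset.mem_union_left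
      exact Finset.mem_sdiff.mpr ⟨Finset.mem_univ _, h⟩
  calc A.card ≤ (P.rest ∪ univ.biUnion (fun i => A ∩ P.W i)).card := Finset.card_le_card hsub
    _ ≤ P.rest.card + (univ.biUnion (fun i => A ∩ P.W i)).card := Finset.card_union_le _ _
    _ ≤ _ := by
        gcongr
        exact Finset.card_biUnion_le

lemma rest_card : P.rest.card ≤ (univ \ univ.biUnion P.X).card + T := by
  have hsub : P.rest ⊆ (univ \ univ.biUnion P.X) ∪ univ.biUnion (fun i => P.X i \ P.W i) := by
    intro x hx
    by_cases h : x ∈ univ.biUnion P.X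
    · apply Finset.mem_union_right
      obtain ⟨i, hi, hxi⟩ := Finset.mem_biUnion.mp h
      refine Finset.mem_biUnion.mpr ⟨i, hi, Finset.mem_sdiff.mpr ⟨hxi, ?_⟩⟩
      intro hw
      exact (Finset.mem_sdiff.mp hx).2 (Finset.mem_biUnion.mpr ⟨i, hi, hw⟩)
    · apply Finset.mem_union_left
      exact Finset.mem_sdiff.mpr ⟨Finset.mem_univ _, h⟩
  calc P.rest.card ≤ _ := Finset.card_le_card hsub
    _ ≤ _ := Finset.card_union_le _ _
    _ ≤ (univ \ univ.biUnion P.X).card + ∑ i : Fin T, (P.X i \ P.W i).card := by
        gcongr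
        exact Finset.card_biUnion_le
    _ ≤ (univ \ univ.biUnion P.X).card + ∑ i : Fin T, 1 := by
        gcongr with i
        exact P.card i
    _ = _ := by simp

end Pieces

variable (ext : V → ℕ) (β : V → Fq × Fq)

/-- the block of the point `p` -/
def blk (p : Fq × Fq) : Finset V := univ.filter (fun x => ext x = 0 ∧ β x = p)

/-- the vertices in light blocks -/
def lgt : Finset V := univ.filter (fun x => ext x = 0 ∧ ∀ i, β x ≠ H i)

/-- the vertices of the extra sets with index larger than `j` -/
def exs (j : ℕ) : Finset V := univ.filter (fun x => j < ext x)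

/-- the extra set with index `j` -/
def exq (j : ℕ) : Finset V := univ.filter (fun x => ext x = j)

theorem core {T : ℕ} (P : Pieces ext β T) (t u : ℕ) (hT : T ≤ 14 + t)
    (hU : P.rest.card < u)
    (hE : ∀ j, 1 ≤ j → j ≤ t → (exs ext j).card + u ≤ (exq ext j).card)
    (hblock : ∀ p, (exs ext 0).card + u ≤ (blk ext β p).card)
    (hheavy : ∀ i, (lgt ext β).card + (exs ext 0).card + u ≤ (blk ext β (H i)).card)
    (hheavy2 : ∀ a, (blk ext β (H a)).card + (lgt ext β).card + (exs ext 0).card + u ≤
      ∑ i ∈ univ.erase a, (blk ext β (H i)).card) : False := by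
  classical
  -- Step 1: every extra colour is used
  have step1 : ∀ j, 1 ≤ j → j ≤ t → ∃ i, (P.W i).Nonempty ∧ P.κ i = 13 + j := by
    intro j hj1 hjt
    by_contra hno
    push Not at hno
    have h1 := P.count (exq ext j) (exs ext j) univ (by
      intro i _ x hxW hxA
      have hxj : ext x = j := (Finset.mem_filter.mp hxA).2
      have hc := P.colr i x hxW
      have hne := hno i ⟨x, hxW⟩
      have hn14 : ¬ col ext β x (P.σ i x) < 14 := by
        rw [col_lt_iff]
        omega
      have hcol := col_ext hn14
      rw [hc, hxj] at hcol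
      apply Finset.mem_filter.mpr
      refine ⟨Finset.mem_univ _, ?_⟩
      by_contra hle
      push Not at hle
      rw [max_eq_left hle] at hcol
      exact hne hcol)
    have h2 := P.cover_bound (exq ext j)
    have h3 := hE j hj1 hjt
    omega
  -- the core pieces
  set Jc : Finset (Fin T) := univ.filter (fun i => (P.W i).Nonempty ∧ P.κ i < 14) with hJc
  have hJcard : Jc.card ≤ 14 := by
    have hex : ∀ j : Fin t, ∃ i, (P.W i).Nonempty ∧ P.κ i = 13 + (j.1 + 1) := fun j =>
      step1 (j.1 + 1) (by omega) (by have := j.2; omega)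
    choose ι hι using hex
    have hinj : Function.Injective ι := by
      intro a b hab
      have h1 := (hι a).2
      have h2 := (hι b).2
      rw [hab] at h1
      apply Fin.ext
      omega
    have hdisj : Disjoint Jc (univ.image ι) := by
      rw [Finset.disjoint_left]
      intro i hi hi'
      obtain ⟨j, -, rfl⟩ := Finset.mem_image.mp hi'
      have h1 := (Finset.mem_filter.mp hi).2.2
      have h2 := (hι j).2
      omega
    have h1 : (Jc ∪ univ.image ι).card ≤ T := by
      simpa using Finset.card_le_univ (Jc ∪ univ.image ι)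
    rw [Finset.card_union_of_disjoint hdisj, Finset.card_image_of_injective _ hinj] at h1
    simp only [Finset.card_univ, Fintype.card_fin] at h1
    omega
  -- pieces that are not core pieces lead to the extra sets
  have hnotcore : ∀ i, i ∉ Jc → ∀ x ∈ P.W i, ext x = 0 → P.σ i x ∈ exs ext 0 := by
    intro i hi x hxW hx0
    have hn : ¬ P.κ i < 14 := by
      intro h
      exact hi (Finset.mem_filter.mpr ⟨Finset.mem_univ _, ⟨x, hxW⟩, h⟩)
    have hc := P.colr i x hxW
    rw [← hc, col_lt_iff] at hn
    apply Finset.mem_filter.mpr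
    refine ⟨Finset.mem_univ _, ?_⟩
    by_contra h0
    exact hn ⟨hx0, by omega⟩
  -- Step 3: every block meets a core piece
  have step3 : ∀ p, ∃ i ∈ Jc, ∃ x ∈ P.W i, ext x = 0 ∧ β x = p := by
    intro p
    by_contra hno
    push Not at hno
    have h1 := P.count (blk ext β p) (exs ext 0) univ (by
      intro i _ x hxW hxA
      have hx := (Finset.mem_filter.mp hxA).2
      by_cases hi : i ∈ Jc
      · exact absurd hx.2 (hno i hi x hxW hx.1)
      · exact hnotcore i hi x hxW hx.1)
    have h2 := P.cover_bound (blk ext β p)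
    have h3 := hblock p
    omega
  -- the lines
  have hrep : ∀ i, i ∈ Jc → ∃ x, x ∈ P.W i := fun i hi => (Finset.mem_filter.mp hi).2.1
  have : Nonempty V := by
    obtain ⟨i, hi, x, -⟩ := step3 (0, 0)
    exact ⟨x⟩
  choose! rep hrepW using hrep
  set S : Finset (ℕ × Fq) := Jc.image (fun i => (P.κ i, g (P.κ i) (β (rep i)))) with hS
  have hline : ∀ i ∈ Jc, ∀ x ∈ P.W i, (P.κ i, g (P.κ i) (β x)) ∈ S := by
    intro i hi x hx
    have hk := (Finset.mem_filter.mp hi).2.2
    rw [P.inv i hk x hx (rep i) (hrepW i hi)]
    exact Finset.mem_image.mpr ⟨i, hi, rfl⟩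
  have hScard : S.card ≤ 14 := le_trans Finset.card_image_le hJcard
  have hSdir : ∀ L ∈ S, L.1 < 14 := by
    intro L hL
    obtain ⟨i, hi, rfl⟩ := Finset.mem_image.mp hL
    exact (Finset.mem_filter.mp hi).2.2
  have hScov : ∀ p : Fq × Fq, ∃ L ∈ S, g L.1 p = L.2 := by
    intro p
    obtain ⟨i, hi, x, hx, -, hxp⟩ := step3 p
    refine ⟨_, hline i hi x hx, ?_⟩
    simp [hxp]
  -- the successor inside the core
  have hsucc : ∀ i ∈ Jc, ∀ x ∈ P.W i, ext (P.σ i x) = 0 ∧
      (β x = β (P.σ i x) → P.κ i = ellP (β x)) ∧
      g (P.κ i) (β x) = g (P.κ i) (β (P.σ i x)) := by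
    intro i hi x hx
    have hk := (Finset.mem_filter.mp hi).2.2
    have hc := P.colr i x hx
    have hlt : col ext β x (P.σ i x) < 14 := by rw [hc]; exact hk
    refine ⟨((col_lt_iff _ _ _ _).mp hlt).2, ?_, ?_⟩
    · intro hb
      rw [← hc]
      exact col_same hlt hb
    · have := g_col hlt
      rwa [hc] at this
  -- lone heavy block
  have lone : ∀ i0 : Fin 5, (∀ i ∈ Jc, ∀ x ∈ P.W i, β x = H i0 →
      ell i0 ≠ P.κ i ∧ ∀ j ≠ i0, g (P.κ i) (H j) ≠ g (P.κ i) (H i0)) → False := by
    intro i0 hyp
    have h1 := P.count (blk ext β (H i0)) (lgt ext β ∪ exs ext 0) univ (by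
      intro i _ x hxW hxA
      have hx := (Finset.mem_filter.mp hxA).2
      by_cases hi : i ∈ Jc
      · apply Finset.mem_union_left
        obtain ⟨s1, s2, s3⟩ := hsucc i hi x hxW
        obtain ⟨y1, y2⟩ := hyp i hi x hxW hx.2
        refine Finset.mem_filter.mpr ⟨Finset.mem_univ _, s1, ?_⟩
        intro j hj
        by_cases hji : j = i0
        · subst hji
          have := s2 (hx.2.trans hj.symm)
          rw [hx.2, ellP_H] at this
          exact y1 this.symm
        · apply y2 j hji
          rw [← hj, ← s3, hx.2]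
      · exact Finset.mem_union_right _ (hnotcore i hi x hxW hx.1))
    have h2 := P.cover_bound (blk ext β (H i0))
    have h3 := hheavy i0
    have h4 := Finset.card_union_le (lgt ext β) (exs ext 0)
    omega
  rcases cover_classification S hSdir hScard hScov with ⟨c, hc, hcl⟩ | ⟨p, hp⟩
  · -- a full parallel class
    have hcls : (univ.image (fun t : Fq => (c, t))) ⊆ S := by
      intro L hL
      obtain ⟨t, -, rfl⟩ := Finset.mem_image.mp hL
      exact hcl t
    have hcard13 : (univ.image (fun t : Fq => (c, t))).card = 13 := by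
      rw [Finset.card_image_of_injective _ (fun a b h => (Prod.mk.inj h).2)]
      simp [ZMod.card]
    have hrem : (S \ univ.image (fun t : Fq => (c, t))).card ≤ 1 := by
      rw [Finset.card_sdiff_of_subset hcls, hcard13]
      omega
    obtain ⟨M, hM⟩ : ∃ M : ℕ × Fq, M.1 < 14 ∧ ∀ L ∈ S, L.1 ≠ c → L = M := by
      by_cases hex : ∃ M ∈ S, M.1 ≠ c
      · obtain ⟨M, hMS, hMc⟩ := hex
        refine ⟨M, hSdir M hMS, ?_⟩
        intro L hL hLc
        rw [Finset.card_le_one] at hrem
        apply hrem
        · refine Finset.mem_sdiff.mpr ⟨hL, ?_⟩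
          intro h
          obtain ⟨t, -, rfl⟩ := Finset.mem_image.mp h
          exact hLc rfl
        · refine Finset.mem_sdiff.mpr ⟨hMS, ?_⟩
          intro h
          obtain ⟨t, -, rfl⟩ := Finset.mem_image.mp h
          exact hMc rfl
      · push Not at hex
        exact ⟨(0, 0), by norm_num, fun L hL hLc => absurd (hex L hL) hLc⟩
    obtain ⟨i0, a1, a2, a3⟩ := class_case c hc M.1 hM.1 M.2
    apply lone i0
    intro i hi x hxW hxb
    have hL := hline i hi x hxW
    have hk : P.κ i = c := by
      by_contra hne
      have := hM.2 _ hL hne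
      apply a3
      rw [← this]
      simp [hxb]
    rw [hk]
    exact ⟨a1, a2⟩
  · -- a pencil
    by_cases hph : ∀ i, H i ≠ p
    · obtain ⟨i0, hi0⟩ := pencil_light p hph
      apply lone i0
      intro i hi x hxW hxb
      have hk := (Finset.mem_filter.mp hi).2.2
      have hL := hp _ (hline i hi x hxW)
      simp only at hL
      rw [hxb] at hL
      obtain ⟨b1, b2⟩ := hi0 (P.κ i) hk hL.symm
      refine ⟨b1, ?_⟩
      intro j hj
      rw [← hL]
      exact b2 j hj
    · push Not at hph
      obtain ⟨a, ha⟩ := hph
      subst ha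
      set A : Finset V := (univ.erase a).biUnion (fun i => blk ext β (H i)) with hA
      have hAcard : A.card = ∑ i ∈ univ.erase a, (blk ext β (H i)).card := by
        rw [hA, Finset.card_biUnion]
        intro i _ j _ hij
        rw [Function.onFun, Finset.disjoint_left]
        intro x hx hx'
        have e1 := (Finset.mem_filter.mp hx).2.2
        have e2 := (Finset.mem_filter.mp hx').2.2
        exact hij (H_inj _ _ (e1.symm.trans e2))
      have h1 := P.count A (blk ext β (H a) ∪ (lgt ext β ∪ exs ext 0)) univ (by
        intro i _ x hxW hxA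
        obtain ⟨i1, hi1, hxi1⟩ := Finset.mem_biUnion.mp hxA
        have hi1a : i1 ≠ a := (Finset.mem_erase.mp hi1).1
        have hx := (Finset.mem_filter.mp hxi1).2
        by_cases hi : i ∈ Jc
        · obtain ⟨s1, s2, s3⟩ := hsucc i hi x hxW
          have hk := (Finset.mem_filter.mp hi).2.2
          have hL := hp _ (hline i hi x hxW)
          simp only at hL
          rw [hx.2] at hL s3
          have hne := pencil_heavy a i1 hi1a (P.κ i) hk hL.symm
          by_cases hlight : ∀ j, β (P.σ i x) ≠ H j
          · apply Finset.mem_union_right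
            apply Finset.mem_union_left
            exact Finset.mem_filter.mpr ⟨Finset.mem_univ _, s1, hlight⟩
          · push Not at hlight
            obtain ⟨j, hj⟩ := hlight
            by_cases hja : j = a
            · apply Finset.mem_union_left
              subst hja
              exact Finset.mem_filter.mpr ⟨Finset.mem_univ _, s1, hj⟩
            · exfalso
              by_cases hji : j = i1
              · subst hji
                have := s2 (hx.2.trans hj.symm)
                rw [hx.2, ellP_H] at this
                exact hne this.symm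
              · apply no_three_collinear i1 a j hi1a (fun e => hji e.symm)
                  (fun e => hja e.symm) (P.κ i) hk
                refine ⟨hL.symm, ?_⟩
                rw [s3, hj]
        · apply Finset.mem_union_right
          exact Finset.mem_union_right _ (hnotcore i hi x hxW hx.1))
      have h2 := P.cover_bound A
      have h3 := hheavy2 a
      have h4 := Finset.card_union_le (lgt ext β) (exs ext 0)
      have h5 := Finset.card_union_le (blk ext β (H a)) (lgt ext β ∪ exs ext 0)
      omega

end

end Pool.Agent.Lib.MP_359994_co
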