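import Pool.Agent.Lib.MP_359994_co.Nine

/-!
# The counting argument
-/

set_option autoImplicit false

namespace Pool.Agent.Lib.MP_359994_co.Four

open Finset

section

variable {V : Type*}

/-- The colour of the pair `u, v`. -/
noncomputable def col (ext : V → ℕ) (β : V → Fin 9) (u v : V) : ℕ :=
  if ext u = 0 ∧ ext v = 0 then (if β u = β v then ellP (β u) else dirN (β u) (β v))
  else 3 + max (ext u) (ext v)

lemma col_comm (ext : V → ℕ) (β : V → Fin 9) (u v : V) :
    col ext β u v = col ext β v u := by
  unfold col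
  by_cases h : ext u = 0 ∧ ext v = 0
  · rw [if_pos h, if_pos h.symm]
    by_cases hb : β u = β v
    · rw [if_pos hb, if_pos hb.symm, hb]
    · rw [if_neg hb, if_neg (fun e => hb e.symm), dirN_comm]
  · rw [if_neg h, if_neg (fun e => h e.symm), max_comm]

lemma col_lt_iff (ext : V → ℕ) (β : V → Fin 9) (u v : V) :
    col ext β u v < 4 ↔ (ext u = 0 ∧ ext v = 0) := by
  unfold col
  by_cases h : ext u = 0 ∧ ext v = 0
  · rw [if_pos h]
    refine ⟨fun _ => h, fun _ => ?_⟩
    split_ifs
    · exact ellP_lt _
    · exact dirN_lt _ _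
  · rw [if_neg h]
    refine ⟨fun h' => ?_, fun h' => absurd h' h⟩
    exfalso
    apply h
    have : max (ext u) (ext v) = 0 := by omega
    constructor
    · have := le_max_left (ext u) (ext v); omega
    · have := le_max_right (ext u) (ext v); omega

lemma col_ext {ext : V → ℕ} {β : V → Fin 9} {u v : V} (h : ¬ col ext β u v < 4) :
    col ext β u v = 3 + max (ext u) (ext v) := by
  rw [col_lt_iff] at h
  unfold col
  rw [if_neg h]

lemma g_col {ext : V → ℕ} {β : V → Fin 9} {u v : V} (h : col ext β u v < 4) :
    g (col ext β u v) (β u) = g (col ext β u v) (β v) := by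
  have h' := (col_lt_iff ext β u v).mp h
  unfold col
  rw [if_pos h']
  by_cases hb : β u = β v
  · rw [if_pos hb, hb]
  · rw [if_neg hb]
    exact g_dirN _ _

/-- a monochromatic pair inside the core: either both vertices are in one block, of internal
colour the colour of the pair, or they are in different blocks. -/
lemma col_same {ext : V → ℕ} {β : V → Fin 9} {u v : V} (h : col ext β u v < 4)
    (hb : β u = β v) : col ext β u v = ellP (β u) := by
  have h' := (col_lt_iff ext β u v).mp h
  unfold col
  rw [if_pos h', if_pos hb]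

variable [Fintype V] [DecidableEq V]

/-- Families of monochromatic paths, with the successor maps. -/
structure Pieces (ext : V → ℕ) (β : V → Fin 9) (T : ℕ) where
  X : Fin T → Finset V
  W : Fin T → Finset V
  κ : Fin T → ℕ
  σ : Fin T → V → V
  disj : ∀ i j, i ≠ j → Disjoint (X i) (X j)
  sub : ∀ i, W i ⊆ X i
  card : ∀ i, (X i \ W i).card ≤ 1
  maps : ∀ i, ∀ x ∈ W i, σ i x ∈ X i
  inj : ∀ i, Set.InjOn (σ i) (W i : Set V)
  colr : ∀ i, ∀ x ∈ W i, col ext β x (σ i x) = κ i
  inv : ∀ i, κ i < 4 → ∀ x ∈ W i, ∀ y ∈ W i, g (κ i) (β x) = g (κ i) (β y)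

namespace Pieces

variable {ext : V → ℕ} {β : V → Fin 9} {T : ℕ} (P : Pieces ext β T)

omit [Fintype V] in
include P in
lemma count (A B : Finset V) (J : Finset (Fin T))
    (h : ∀ i ∈ J, ∀ x ∈ P.W i, x ∈ A → P.σ i x ∈ B) :
    ∑ i ∈ J, (A ∩ P.W i).card ≤ B.card := by
  calc ∑ i ∈ J, (A ∩ P.W i).card ≤ ∑ i ∈ J, (B ∩ P.X i).card := by
        apply Finset.sum_le_sum
        intro i hi
        apply Finset.card_le_card_of_injOn (P.σ i)
        · intro x hx
          have hx' := Finset.mem_inter.mp (Finset.mem_coe.mp hx)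
          exact Finset.mem_coe.mpr (Finset.mem_inter.mpr
            ⟨h i hi x hx'.2 hx'.1, P.maps i x hx'.2⟩)
        · intro x hx y hy hxy
          have hx' := Finset.mem_inter.mp (Finset.mem_coe.mp hx)
          have hy' := Finset.mem_inter.mp (Finset.mem_coe.mp hy)
          exact P.inj i (Finset.mem_coe.mpr hx'.2) (Finset.mem_coe.mpr hy'.2) hxy
    _ = (J.biUnion (fun i => B ∩ P.X i)).card := by
        rw [Finset.card_biUnion]
        intro i _ j _ hij
        exact (P.disj i j hij).mono Finset.inter_subset_right Finset.inter_subset_right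
    _ ≤ B.card := by
        apply Finset.card_le_card
        intro x hx
        obtain ⟨i, -, hi⟩ := Finset.mem_biUnion.mp hx
        exact (Finset.mem_inter.mp hi).1

/-- the vertices that are not in any `W i` -/
def rest : Finset V := univ \ univ.biUnion P.W

lemma cover_bound (A : Finset V) :
    A.card ≤ P.rest.card + ∑ i, (A ∩ P.W i).card := by
  have hsub : A ⊆ P.rest ∪ univ.biUnion (fun i => A ∩ P.W i) := by
    intro x hx
    by_cases h : x ∈ univ.biUnion P.W
    · apply Finset.mem_union_right
      obtain ⟨i, hi, hxi⟩ := Finset.mem_biUnion.mp h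
      exact Finset.mem_biUnion.mpr ⟨i, hi, Finset.mem_inter.mpr ⟨hx, hxi⟩⟩
    · apply Finset.mem_union_left
      exact Finset.mem_sdiff.mpr ⟨Finset.mem_univ _, h⟩
  calc A.card ≤ (P.rest ∪ univ.biUnion (fun i => A ∩ P.W i)).card := Finset.card_le_card hsub
    _ ≤ P.rest.card + (univ.biUnion (fun i => A ∩ P.W i)).card := Finset.card_union_le _ _
    _ ≤ _ := by
        gcongr
        exact Finset.card_biUnion_le

lemma rest_card : P.rest.card ≤ (univ \ univ.biUnion P.X).card + T := by
  have hsub : P.rest ⊆ (univ \ univ.biUnion P.X) ∪ univ.biUnion (fun i => P.X i \ P.W i) := by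
    intro x hx
    by_cases h : x ∈ univ.biUnion P.X
    · apply Finset.mem_union_right
      obtain ⟨i, hi, hxi⟩ := Finset.mem_biUnion.mp h
      refine Finset.mem_biUnion.mpr ⟨i, hi, Finset.mem_sdiff.mpr ⟨hxi, ?_⟩⟩
      intro hw
      exact (Finset.mem_sdiff.mp hx).2 (Finset.mem_biUnion.mpr ⟨i, hi, hw⟩)
    · apply Finset.mem_union_left
      exact Finset.mem_sdiff.mpr ⟨Finset.mem_univ _, h⟩
  calc P.rest.card ≤ _ := Finset.card_le_card hsub
    _ ≤ _ := Finset.card_union_le _ _
    _ ≤ (univ \ univ.biUnion P.X).card + ∑ i : Fin T, (P.X i \ P.W i).card := by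
        gcongr
        exact Finset.card_biUnion_le
    _ ≤ (univ \ univ.biUnion P.X).card + ∑ i : Fin T, 1 := by
        gcongr with i
        exact P.card i
    _ = _ := by simp

end Pieces

variable (ext : V → ℕ) (β : V → Fin 9)

/-- the block of the point `p` -/
def blk (p : Fin 9) : Finset V := univ.filter (fun x => ext x = 0 ∧ β x = p)

/-- the vertices of the extra sets with index larger than `j` -/
def exs (j : ℕ) : Finset V := univ.filter (fun x => j < ext x)

/-- the extra set with index `j` -/
def exq (j : ℕ) : Finset V := univ.filter (fun x => ext x = j)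

theorem core {T : ℕ} (P : Pieces ext β T) (t u : ℕ) (hT : T ≤ 4 + t)
    (hU : P.rest.card < u)
    (hE : ∀ j, 1 ≤ j → j ≤ t → (exs ext j).card + u ≤ (exq ext j).card)
    (hcert : ∀ j : Fin 13, ∑ p ∈ cN j, (blk ext β p).card + (exs ext 0).card + u ≤
      ∑ p ∈ cI j, (blk ext β p).card) : False := by
  classical
  -- Step 1: every extra colour is used
  have step1 : ∀ j, 1 ≤ j → j ≤ t → ∃ i, (P.W i).Nonempty ∧ P.κ i = 3 + j := by
    intro j hj1 hjt
    by_contra hno
    push Not at hno
    have h1 := P.count (exq ext j) (exs ext j) univ (by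
      intro i _ x hxW hxA
      have hxj : ext x = j := (Finset.mem_filter.mp hxA).2
      have hc := P.colr i x hxW
      have hne := hno i ⟨x, hxW⟩
      have hn14 : ¬ col ext β x (P.σ i x) < 4 := by
        rw [col_lt_iff]
        omega
      have hcol := col_ext hn14
      rw [hc, hxj] at hcol
      apply Finset.mem_filter.mpr
      refine ⟨Finset.mem_univ _, ?_⟩
      by_contra hle
      push Not at hle
      rw [max_eq_left hle] at hcol
      exact hne hcol)
    have h2 := P.cover_bound (exq ext j)
    have h3 := hE j hj1 hjt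
    omega
  -- the core pieces
  set Jc : Finset (Fin T) := univ.filter (fun i => (P.W i).Nonempty ∧ P.κ i < 4) with hJc
  have hJcard : Jc.card ≤ 4 := by
    have hex : ∀ j : Fin t, ∃ i, (P.W i).Nonempty ∧ P.κ i = 3 + (j.1 + 1) := fun j =>
      step1 (j.1 + 1) (by omega) (by have := j.2; omega)
    choose ι hι using hex
    have hinj : Function.Injective ι := by
      intro a b hab
      have h1 := (hι a).2
      have h2 := (hι b).2
      rw [hab] at h1
      apply Fin.ext
      omega
    have hdisj : Disjoint Jc (univ.image ι) := by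
      rw [Finset.disjoint_left]
      intro i hi hi'
      obtain ⟨j, -, rfl⟩ := Finset.mem_image.mp hi'
      have h1 := (Finset.mem_filter.mp hi).2.2
      have h2 := (hι j).2
      omega
    have h1 : (Jc ∪ univ.image ι).card ≤ T := by
      simpa using Finset.card_le_univ (Jc ∪ univ.image ι)
    rw [Finset.card_union_of_disjoint hdisj, Finset.card_image_of_injective _ hinj] at h1
    simp only [Finset.card_univ, Fintype.card_fin] at h1
    omega
  -- pieces that are not core pieces lead to the extra sets
  have hnotcore : ∀ i, i ∉ Jc → ∀ x ∈ P.W i, ext x = 0 → P.σ i x ∈ exs ext 0 := by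
    intro i hi x hxW hx0
    have hn : ¬ P.κ i < 4 := by
      intro h
      exact hi (Finset.mem_filter.mpr ⟨Finset.mem_univ _, ⟨x, hxW⟩, h⟩)
    have hc := P.colr i x hxW
    rw [← hc, col_lt_iff] at hn
    apply Finset.mem_filter.mpr
    refine ⟨Finset.mem_univ _, ?_⟩
    by_contra h0
    exact hn ⟨hx0, by omega⟩
  -- the lines of the core pieces
  have hrep : ∀ i, i ∈ Jc → ∃ L : Fin 12, ∀ x ∈ P.W i, L.val = 3 * P.κ i + g (P.κ i) (β x) := by
    intro i hi
    obtain ⟨⟨x, hx⟩, hk⟩ := (Finset.mem_filter.mp hi).2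
    refine ⟨⟨3 * P.κ i + g (P.κ i) (β x), ?_⟩, ?_⟩
    · have := g_lt (P.κ i) hk (β x)
      omega
    · intro y hy
      simp only
      rw [P.inv i hk x hx y hy]
  choose! line hline using hrep
  obtain ⟨j, hj⟩ := exists_cert (Jc.image line) (le_trans Finset.card_image_le hJcard)
  set A : Finset V := (cI j).biUnion (fun p => blk ext β p) with hA
  set B : Finset V := (cN j).biUnion (fun p => blk ext β p) with hB
  have hAcard : A.card = ∑ p ∈ cI j, (blk ext β p).card := by
    rw [hA, Finset.card_biUnion]
    intro p _ q _ hpq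
    rw [Function.onFun, Finset.disjoint_left]
    intro x hx hx'
    have e1 := (Finset.mem_filter.mp hx).2.2
    have e2 := (Finset.mem_filter.mp hx').2.2
    exact hpq (e1.symm.trans e2)
  have hBcard : B.card ≤ ∑ p ∈ cN j, (blk ext β p).card := Finset.card_biUnion_le
  have h1 := P.count A (B ∪ exs ext 0) univ (by
    intro i _ x hxW hxA
    obtain ⟨p, hp, hxp⟩ := Finset.mem_biUnion.mp hxA
    obtain ⟨hx0, hxp⟩ := (Finset.mem_filter.mp hxp).2
    by_cases hi : i ∈ Jc
    · apply Finset.mem_union_left
      have hk := (Finset.mem_filter.mp hi).2.2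
      have hc := P.colr i x hxW
      have hlt : col ext β x (P.σ i x) < 4 := by rw [hc]; exact hk
      have s1 := ((col_lt_iff _ _ _ _).mp hlt).2
      have s3 := g_col hlt
      rw [hc] at s3
      have hL := hline i hi x hxW
      rw [hxp] at hL s3
      obtain ⟨b1, b2⟩ := cert_ok j ⟨P.κ i, hk⟩ p hp (line i)
        (hj (Finset.mem_image.mpr ⟨i, hi, rfl⟩)) hL
      refine Finset.mem_biUnion.mpr ⟨β (P.σ i x), b2 _ ?_ s3.symm,
        Finset.mem_filter.mpr ⟨Finset.mem_univ _, s1, rfl⟩⟩
      intro e
      apply b1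
      simp only
      rw [← hc, col_same hlt (hxp.trans e.symm), hxp]
    · exact Finset.mem_union_right _ (hnotcore i hi x hxW hx0))
  have h2 := P.cover_bound A
  have h3 := hcert j
  have h4 := Finset.card_union_le B (exs ext 0)
  omega

end

end Pool.Agent.Lib.MP_359994_co.Four
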