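import Pool.Agent.Lib.MP_359994_co.Plane

/-!
# Five heavy points of the affine plane of order 13
-/

set_option autoImplicit false

namespace Pool.Agent.Lib.MP_359994_co

/-- the five heavy points -/
def H : Fin 5 → Fq × Fq := ![(6, 11), (4, 4), (9, 3), (2, 8), (2, 2)]

/-- the colours inside the heavy blocks -/
def ell : Fin 5 → ℕ := ![7, 9, 0, 7, 9]

lemma ell_lt (i : Fin 5) : ell i < 14 := by
  revert i; decide

lemma H_inj : ∀ i j, H i = H j → i = j := by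
  decide +kernel

lemma no_three_collinear : ∀ i j k : Fin 5, i ≠ j → i ≠ k → j ≠ k → ∀ d < 14,
    ¬ (g d (H i) = g d (H j) ∧ g d (H i) = g d (H k)) := by
  decide +kernel

lemma pencil_heavy : ∀ a i : Fin 5, i ≠ a → ∀ d < 14, g d (H i) = g d (H a) → ell i ≠ d := by
  decide +kernel

lemma pencil_light : ∀ p : Fq × Fq, (∀ i, H i ≠ p) → ∃ i, ∀ d < 14, g d (H i) = g d p →
    ell i ≠ d ∧ ∀ j ≠ i, g d (H j) ≠ g d p := by
  decide +kernel

lemma class_case_aux : ∀ (c d : Fin 14) (t : Fq), ∃ i : Fin 5, (ell i ≠ c.1 ∧ g d.1 (H i) ≠ t) ∧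
    ∀ j : Fin 5, j ≠ i → g c.1 (H j) ≠ g c.1 (H i) := by
  decide +kernel

lemma class_case (c : ℕ) (hc : c < 14) (d : ℕ) (hd : d < 14) (t : Fq) : ∃ i, ell i ≠ c ∧
    (∀ j ≠ i, g c (H j) ≠ g c (H i)) ∧ g d (H i) ≠ t := by
  obtain ⟨i, h1, h2⟩ := class_case_aux ⟨c, hc⟩ ⟨d, hd⟩ t
  exact ⟨i, h1.1, h2, h1.2⟩

end Pool.Agent.Lib.MP_359994_co
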