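import Mathlib

/-!
# Nine weighted points: the affine plane of order 3 and the thirteen certificates

The points of the affine plane of order 3 are the numbers `0, …, 8`, where `p = 3 x + y` has the
coordinates `(x, y)`. The directions (base colours) are `0, 1, 2` (slopes) and `3` (vertical).
-/

set_option autoImplicit false

namespace Pool.Agent.Lib.MP_359994_co.Four

/-- the line of direction `c` through `p` is the set of the points with the same value of `g c` -/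
def g (c : ℕ) (p : Fin 9) : ℕ :=
  if c = 3 then p.val / 3 else (p.val % 3 + (3 - c) * (p.val / 3)) % 3

/-- the direction of the line through `p` and `p'` -/
def dirN (p p' : Fin 9) : ℕ :=
  if g 3 p = g 3 p' then 3 else if g 0 p = g 0 p' then 0 else if g 1 p = g 1 p' then 1 else 2

/-- the colour inside the block of a point -/
def ellP : Fin 9 → ℕ := ![1, 1, 1, 2, 0, 2, 1, 0, 1]

/-- the weights of the points -/
def wv : Fin 9 → ℕ := ![1, 3, 1, 3, 1, 13, 5, 1, 15]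

/-- the lines (the line `(c, t)` has the index `3 c + t`) allowed by a certificate -/
def cA : Fin 13 → Finset (Fin 12) :=
  ![{0, 1, 3, 4, 5, 7, 8, 9, 10, 11}, {0, 2, 3, 5, 6, 8, 9, 10, 11},
    {0, 1, 4, 5, 6, 7, 8, 9, 10, 11}, {1, 2, 3, 4, 5, 6, 8, 9, 11},
    {0, 1, 2, 3, 5, 6, 7, 9, 10}, {1, 2, 4, 5, 7, 8, 10, 11}, {0, 2, 3, 4, 7, 8, 9, 10},
    {0, 2, 4, 5, 6, 7, 9, 11}, {0, 1, 3, 4, 6, 7, 10, 11}, {0, 1, 2, 4, 5, 6, 8, 9, 10},
    {1, 2, 3, 5, 6, 7, 8, 9, 10}, {0, 1, 2, 3, 5, 6, 8, 10, 11}, {1, 2, 3, 5, 7, 9, 11}]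

/-- the independent set of a certificate -/
def cI : Fin 13 → Finset (Fin 9) :=
  ![{5}, {1}, {8}, {3}, {6}, {0}, {7}, {4}, {2}, {8}, {6}, {1}, {5, 6}]

/-- the neighbourhood of a certificate -/
def cN : Fin 13 → Finset (Fin 9) :=
  ![{1, 3, 4, 6}, {0, 2}, {1, 3, 6, 7}, {2, 7}, {0, 3}, ∅, ∅, ∅, ∅, {2, 5}, {2, 4}, {4, 7},
    {2, 7, 8}]

lemma g_lt (c : ℕ) (hc : c < 4) (p : Fin 9) : g c p < 3 := by
  revert p
  interval_cases c <;> decide

lemma dirN_lt (p p' : Fin 9) : dirN p p' < 4 := by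
  unfold dirN
  split_ifs <;> norm_num

lemma dirN_comm (p p' : Fin 9) : dirN p p' = dirN p' p := by
  unfold dirN
  simp only [eq_comm]

lemma g_dirN : ∀ p p' : Fin 9, g (dirN p p') p = g (dirN p p') p' := by
  decide

lemma ellP_lt (p : Fin 9) : ellP p < 4 := by
  revert p; decide

lemma cert_ok : ∀ j : Fin 13, ∀ c : Fin 4, ∀ x ∈ cI j, ∀ L ∈ cA j,
    L.val = 3 * c.val + g c.val x →
    ellP x ≠ c.val ∧ ∀ y : Fin 9, y ≠ x → g c.val y = g c.val x → y ∈ cN j := by
  decide +kernel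

lemma cert_wt : ∀ j : Fin 13, ∑ x ∈ cN j, wv x + 1 ≤ ∑ x ∈ cI j, wv x := by
  decide

lemma cert_sorted : ∀ a b : Fin 12, a < b → ∀ c : Fin 12, b < c → ∀ d : Fin 12, c < d →
    ∃ j : Fin 13, a ∈ cA j ∧ b ∈ cA j ∧ c ∈ cA j ∧ d ∈ cA j := by
  decide +kernel

/-- any at most four lines are allowed by one of the certificates -/
theorem exists_cert (S : Finset (Fin 12)) (hS : S.card ≤ 4) : ∃ j : Fin 13, S ⊆ cA j := by
  obtain ⟨S', hSS', hS'⟩ := Finset.exists_superset_card_eq hS (by simp)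
  let e := S'.orderEmbOfFin hS'
  obtain ⟨j, h0, h1, h2, h3⟩ := cert_sorted (e 0) (e 1) (e.strictMono (by decide)) (e 2)
    (e.strictMono (by decide)) (e 3) (e.strictMono (by decide))
  refine ⟨j, fun L hL => ?_⟩
  have h4 : L ∈ Set.range e := by
    rw [Finset.range_orderEmbOfFin]
    exact Finset.mem_coe.mpr (hSS' hL)
  obtain ⟨i, rfl⟩ := h4
  fin_cases i
  · exact h0
  · exact h1
  · exact h2
  · exact h3

end Pool.Agent.Lib.MP_359994_co.Four
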