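import Mathlib

/-!
# The affine plane over `ZMod 13`: lines and covers by 14 lines
-/

set_option autoImplicit false

namespace Pool.Agent.Lib.MP_359994_co

/-- the field with 13 elements -/
abbrev Fq : Type := ZMod 13

instance : Fact (Nat.Prime 13) := ⟨by norm_num⟩

/-- the line of direction `c` (`c < 13`: slope `c`; `c = 13`: vertical) through `p` is the set of
points with the same value of `g c`. -/
def g (c : ℕ) (p : Fq × Fq) : Fq := if c = 13 then p.1 else p.2 - (c : Fq) * p.1

/-- the direction of the line through `p` and `p'` -/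
def dirN (p p' : Fq × Fq) : ℕ := if p.1 = p'.1 then 13 else ((p'.2 - p.2) / (p'.1 - p.1)).val

lemma dirN_lt (p p' : Fq × Fq) : dirN p p' < 14 := by
  unfold dirN
  split_ifs
  · norm_num
  · exact lt_trans (ZMod.val_lt _) (by norm_num)

lemma dirN_comm (p p' : Fq × Fq) : dirN p p' = dirN p' p := by
  unfold dirN
  by_cases h : p.1 = p'.1
  · simp [h]
  · have h' : ¬ p'.1 = p.1 := fun e => h e.symm
    simp only [h, h', if_false]
    congr 1
    rw [← neg_sub p.2 p'.2, ← neg_sub p.1 p'.1, neg_div_neg_eq]

lemma g_dirN (p p' : Fq × Fq) : g (dirN p p') p = g (dirN p p') p' := by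
  unfold dirN
  by_cases h : p.1 = p'.1
  · simp [h, g]
  · simp only [h, if_false]
    have hlt : ((p'.2 - p.2) / (p'.1 - p.1)).val < 13 := ZMod.val_lt _
    have hne : ((p'.2 - p.2) / (p'.1 - p.1)).val ≠ 13 := ne_of_lt hlt
    simp only [g, hne, if_false, ZMod.natCast_val, ZMod.cast_id', id_eq]
    have hd : p'.1 - p.1 ≠ 0 := sub_ne_zero.mpr (fun e => h e.symm)
    field_simp
    ring

lemma dirN_unique {c : ℕ} (hc : c < 14) {p p' : Fq × Fq} (hne : p ≠ p')
    (h : g c p = g c p') : c = dirN p p' := by
  unfold dirN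
  by_cases h13 : c = 13
  · subst h13
    simp only [g, if_true] at h
    simp [h]
  · simp only [g, h13, if_false] at h
    have hx : ¬ p.1 = p'.1 := by
      intro e
      apply hne
      rw [e] at h
      exact Prod.ext e (by linear_combination h)
    simp only [hx, if_false]
    have hd : p'.1 - p.1 ≠ 0 := sub_ne_zero.mpr (fun e => hx e.symm)
    have : (p'.2 - p.2) / (p'.1 - p.1) = (c : Fq) := by
      rw [div_eq_iff hd]
      linear_combination -h
    rw [this, ZMod.val_natCast_of_lt (by omega)]

/-- a parametrisation of the points of the line `(c, t)` -/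
def pt (c : ℕ) (t u : Fq) : Fq × Fq := if c = 13 then (t, u) else (u, t + (c : Fq) * u)

lemma g_pt (c : ℕ) (t u : Fq) : g c (pt c t u) = t := by
  unfold g pt
  by_cases h : c = 13
  · simp [h]
  · simp [h]

lemma pt_inj {c : ℕ} {t u u' : Fq} (h : pt c t u = pt c t u') : u = u' := by
  unfold pt at h
  by_cases h13 : c = 13
  · simpa [h13] using h
  · simp only [h13, if_false, Prod.mk.injEq] at h
    exact h.1

/-- every point of the plane on the line `(c,t)` is some `pt c t u` -/
lemma exists_pt {c : ℕ} {t : Fq} {p : Fq × Fq} (h : g c p = t) : ∃ u, pt c t u = p := by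
  unfold g at h
  unfold pt
  by_cases h13 : c = 13
  · simp only [h13, if_true] at h ⊢
    exact ⟨p.2, Prod.ext h.symm rfl⟩
  · simp only [h13, if_false] at h ⊢
    exact ⟨p.1, Prod.ext rfl (by simp only; linear_combination -h)⟩

/-- two lines of different directions meet in at most one point -/
lemma meet_unique {c d : ℕ} (hc : c < 14) (hd : d < 14) (hcd : c ≠ d) {p p' : Fq × Fq}
    (h1 : g c p = g c p') (h2 : g d p = g d p') : p = p' := by
  by_contra hne
  exact hcd ((dirN_unique hc hne h1).trans (dirN_unique hd hne h2).symm)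

/-- two lines of different directions meet -/
lemma exists_meet {c d : ℕ} (hc : c < 14) (hd : d < 14) (hcd : c ≠ d) (t t' : Fq) :
    ∃ p, g c p = t ∧ g d p = t' := by
  have hinj : Function.Injective (fun u => g d (pt c t u)) := by
    intro u u' h
    simp only at h
    exact pt_inj (meet_unique hc hd hcd ((g_pt c t u).trans (g_pt c t u').symm) h)
  have hsurj := Finite.surjective_of_injective hinj
  obtain ⟨u, hu⟩ := hsurj t'
  exact ⟨pt c t u, g_pt c t u, hu⟩

/-- Covers of the affine plane of order 13 by at most 14 lines: a full parallel class (plus at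
most one line) or a set of concurrent lines. -/
theorem cover_classification (S : Finset (ℕ × Fq)) (hdir : ∀ L ∈ S, L.1 < 14)
    (hcard : S.card ≤ 14) (hcov : ∀ p : Fq × Fq, ∃ L ∈ S, g L.1 p = L.2) :
    (∃ c < 14, ∀ t, (c, t) ∈ S) ∨ (∃ p, ∀ L ∈ S, g L.1 p = L.2) := by
  classical
  by_cases hcl : ∃ c < 14, ∀ t, (c, t) ∈ S
  · exact Or.inl hcl
  right
  push Not at hcl
  choose f hfS hf using hcov
  -- the injection from the points of a missing line
  have key : ∀ c < 14, ∀ t, (c, t) ∉ S →
      (∀ u, f (pt c t u) ∈ S.filter (fun L => L.1 ≠ c)) ∧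
      Function.Injective (fun u => f (pt c t u)) := by
    intro c hc t ht
    have h1 : ∀ u, f (pt c t u) ∈ S.filter (fun L => L.1 ≠ c) := by
      intro u
      rw [Finset.mem_filter]
      refine ⟨hfS _, ?_⟩
      intro e
      apply ht
      have := hf (pt c t u)
      rw [e, g_pt] at this
      have h2 : f (pt c t u) = (c, t) := Prod.ext e this.symm
      rw [← h2]
      exact hfS _
    refine ⟨h1, ?_⟩
    intro u u' h
    simp only at h
    have hd := (Finset.mem_filter.mp (h1 u)).2
    have e1 := hf (pt c t u)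
    have e2 := hf (pt c t u')
    rw [← h] at e2
    exact pt_inj (meet_unique hc (hdir _ (hfS _)) (Ne.symm hd)
      ((g_pt c t u).trans (g_pt c t u').symm) (e1.trans e2.symm))
  have hsplit : ∀ c, (S.filter (fun L => L.1 = c)).card + (S.filter (fun L => L.1 ≠ c)).card
      = S.card := fun c => Finset.card_filter_add_card_filter_not (fun L : ℕ × Fq => L.1 = c)
  have hge : ∀ c < 14, 13 ≤ (S.filter (fun L => L.1 ≠ c)).card := by
    intro c hc
    obtain ⟨t, ht⟩ := hcl c hc
    obtain ⟨h1, h2⟩ := key c hc t ht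
    have : (Finset.univ.image (fun u => f (pt c t u))).card = 13 := by
      rw [Finset.card_image_of_injective _ h2]
      simp [ZMod.card]
    rw [← this]
    apply Finset.card_le_card
    intro L hL
    obtain ⟨u, -, rfl⟩ := Finset.mem_image.mp hL
    exact h1 u
  have hone : ∀ c < 14, (S.filter (fun L => L.1 = c)).card ≤ 1 := by
    intro c hc
    have := hsplit c
    have := hge c hc
    omega
  have huniq : ∀ L ∈ S, ∀ L' ∈ S, L.1 = L'.1 → L = L' := by
    intro L hL L' hL' e
    have := hone L'.1 (hdir _ hL')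
    rw [Finset.card_le_one] at this
    exact this L (Finset.mem_filter.mpr ⟨hL, e⟩) L' (Finset.mem_filter.mpr ⟨hL', rfl⟩)
  -- two distinct lines
  have h13 : 13 ≤ S.card := by
    have := hsplit 0
    have := hge 0 (by norm_num)
    omega
  obtain ⟨L1, hL1, L2, hL2, hne⟩ := Finset.one_lt_card.mp (show 1 < S.card by omega)
  have hd12 : L1.1 ≠ L2.1 := fun e => hne (huniq L1 hL1 L2 hL2 e)
  obtain ⟨p, hp1, hp2⟩ := exists_meet (hdir _ hL1) (hdir _ hL2) hd12 L1.2 L2.2
  refine ⟨p, ?_⟩
  intro L hL
  by_contra hLp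
  have hc := hdir L hL
  have hmiss : (L.1, g L.1 p) ∉ S := by
    intro hmem
    have := huniq _ hmem L hL rfl
    exact hLp (congrArg Prod.snd this)
  obtain ⟨h1, h2⟩ := key L.1 hc _ hmiss
  -- the injection is a bijection
  have hle : (S.filter (fun L' => L'.1 ≠ L.1)).card ≤ 13 := by
    have := hsplit L.1
    have : 1 ≤ (S.filter (fun L' => L'.1 = L.1)).card :=
      Finset.card_pos.mpr ⟨L, Finset.mem_filter.mpr ⟨hL, rfl⟩⟩
    omega
  have heq : Finset.univ.image (fun u => f (pt L.1 (g L.1 p) u)) =
      S.filter (fun L' => L'.1 ≠ L.1) := by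
    apply Finset.eq_of_subset_of_card_le
    · intro L' hL'
      obtain ⟨u, -, rfl⟩ := Finset.mem_image.mp hL'
      exact h1 u
    · rw [Finset.card_image_of_injective _ h2]
      simpa [ZMod.card] using hle
  have hdL : ∀ L' ∈ S, g L'.1 p = L'.2 → L'.1 ≠ L.1 := by
    intro L' hL' hp' e
    have := huniq L' hL' L hL e
    rw [this] at hp'
    exact hLp hp'
  have hget : ∀ L' ∈ S, g L'.1 p = L'.2 → f p = L' := by
    intro L' hL' hp'
    have hm : L' ∈ S.filter (fun L' => L'.1 ≠ L.1) :=
      Finset.mem_filter.mpr ⟨hL', hdL L' hL' hp'⟩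
    rw [← heq] at hm
    obtain ⟨u, -, hu⟩ := Finset.mem_image.mp hm
    have e1 := hf (pt L.1 (g L.1 p) u)
    rw [hu] at e1
    have : pt L.1 (g L.1 p) u = p := by
      apply meet_unique hc (hdir _ hL') (Ne.symm (hdL L' hL' hp')) (g_pt _ _ _)
      rw [e1, hp']
    rw [this] at hu
    exact hu
  exact hne ((hget L1 hL1 hp1).symm.trans (hget L2 hL2 hp2))

end Pool.Agent.Lib.MP_359994_co
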